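import Pool.Agent.HStar.Asm2
import Pool.Agent.K1.Final
import Pool.Agent.HSix.Main
import Pool.Agent.HFin.K2Mid
import Pool.Agent.HSmall.Main
import Pool.Agent.HSixP1.P1a
import Pool.Agent.H18P1.Final
import Pool.Agent.HP1b.Scal
import Pool.Agent.HTen.Low

/-!
# All the cases of the middle region
-/

set_option autoImplicit false

namespace Pool.Agent.HFull

open Pool.Agent.HStar

theorem mid_one {N : ℕ} : MidH N 1 := by
  intro L x hL h0 h1 _ _ hb ha
  obtain ⟨a, ha⟩ := ha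
  obtain ⟨b, hb⟩ := hb
  exact Pool.Agent.K1.pw_one hL (by linarith) h1 ha.le hb.le

theorem mid_six_two : MidH 3 2 := by
  intro L x hL h0 h1 hp hm hb ha
  have hx : x ∈ Set.Icc (-1:ℝ) 1 := ⟨by linarith, h1.le⟩
  have e1 : Pool.Agent.HHalfB.bal 2 = 2 := by unfold Pool.Agent.HHalfB.bal; norm_num
  have e2 : (2:ℝ) ≤ thr 3 2 := by unfold thr Pool.Agent.HHalfC.cth; norm_num
  rw [e1] at hm
  exact Pool.Agent.HSix.pw_six_two hL hx hm (by linarith) hb ha

theorem thr_ge {N k : ℕ} (hk : 6 ≤ k) : (k:ℝ) + 1 / 4 ≤ thr N k := by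
  unfold thr Pool.Agent.HHalfC.cth
  rw [if_neg (by omega), if_neg (by omega), if_neg (by omega), if_neg (by omega)]
  split_ifs <;> linarith

theorem bal_eq {k : ℕ} (hk : 6 ≤ k) : Pool.Agent.HHalfB.bal k = k - 2 := by
  unfold Pool.Agent.HHalfB.bal
  rw [if_neg (by omega), if_neg (by omega), if_neg (by omega), if_neg (by omega)]

theorem mid_six_up {N k : ℕ} (hk : 6 ≤ k) (hN : k + 1 ≤ N) : MidH N k := by
  intro L x hL h0 h1 hp hm hb ha
  rcases le_total x (7/10) with hx | hx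
  · exact Pool.Agent.HTen.pw_low_all hk hN hL h0 hx hp
  rcases le_total (9/10) x with hx9 | hx9
  · exact Pool.Agent.HP1b.pw_right hk hN hL hx9 h1 hp hm ha
  have h3 : k = 6 ∨ k = 7 ∨ 8 ≤ k := by omega
  rcases h3 with rfl | rfl | h8
  · exact Pool.Agent.H18P1.pw_six_hi (by omega) hL hx h1 hp hm ha
  · exact Pool.Agent.H18P1.pw_seven_hi (by omega) hL hx h1 hp hm ha
  · refine Pool.Agent.HSixP1.pw_P1a h8 hN hL hx hx9 ?_ ?_
    · exact (thr_ge hk).trans hp.le
    · rw [← bal_eq hk]; exact hm.le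

theorem mid_all : ∀ N k : ℕ, 1 ≤ k → k + 1 ≤ N → MidH N k := by
  intro N k hk hN
  have hcases : k = 1 ∨ k = 2 ∨ k = 3 ∨ k = 4 ∨ k = 5 ∨ 6 ≤ k := by omega
  rcases hcases with rfl | rfl | rfl | rfl | rfl | h
  · exact mid_one
  · have : N = 3 ∨ 4 ≤ N := by omega
    rcases this with rfl | h4
    · exact mid_six_two
    · exact Pool.Agent.HFin.midH_two h4
  · exact Pool.Agent.HSmall.midH3 (by omega)
  · exact Pool.Agent.HSmall.midH4 (by omega)
  · exact Pool.Agent.HSmall.midH5 (by omega)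
  · exact mid_six_up h hN

end Pool.Agent.HFull
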